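import Pool.Agent.Helper52.NF.St

set_option autoImplicit false

/-! Project NF, module S3a. -/

namespace Pool.Agent.Helper7.NF

open Pool.Agent.Helper52.NF Finset

theorem hS3a (h1 : StL1) (hp : StPAR) : StS3a := by
  classical
  intro ε N _ _ α β E J u hB hC hex
  obtain ⟨C0, hC0⟩ := hex
  have hne : (E.powerset.filter (fun C => Bad α β E J u C)).Nonempty :=
    ⟨C0, Finset.mem_filter.2 ⟨Finset.mem_powerset.2 hC0.1, hC0⟩⟩
  obtain ⟨C, hCS, hmin'⟩ := Finset.exists_min_image _ Finset.card hne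
  obtain ⟨hCE, hCu, hCN, hCw⟩ := (Finset.mem_filter.1 hCS).2
  have hmin : ∀ D, Bad α β E J u D → C.card ≤ D.card := fun D hD =>
    hmin' D (Finset.mem_filter.2 ⟨Finset.mem_powerset.2 hD.1, hD⟩)
  have hz : ∃ z, bd α β C z ≠ 0 := by
    by_contra hc
    push_neg at hc
    exact absurd (hC.2 C hCE hc) (not_le.2 hCw)
  obtain ⟨z1, hz1⟩ := hz
  obtain ⟨C1, hC1, z2, hz2, hbz2, hb1⟩ := h1 ε N α β C z1 (zne hz1)
  have hbz2' : bd α β C z2 ≠ 0 := by rw [hbz2]; exact one_ne_zero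
  have hodd : ∀ z, pt z1 z + pt z2 z ≠ 0 → Nb α β E u z := by
    intro z hzz
    by_cases e1 : z = z1
    · rw [e1]; exact hCN z1 hz1
    · by_cases e2 : z = z2
      · rw [e2]; exact hCN z2 hbz2'
      · exact absurd (by rw [pt_ne e1, pt_ne e2, add_zero]) hzz
  have hC1ne : C1 ≠ ∅ := by
    intro h0
    have := hb1 z1
    rw [h0, bd_empty, pt_self, pt_ne (Ne.symm hz2), add_zero] at this
    exact one_ne_zero this.symm
  have hlt : ∀ D ⊆ C, D ≠ ∅ → (C \ D).card < C.card := by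
    intro D hD hDne
    apply Finset.card_lt_card
    rw [Finset.ssubset_iff_subset_ne]
    refine ⟨Finset.sdiff_subset, fun h => hDne ?_⟩
    rw [Finset.sdiff_eq_self_iff_disjoint] at h
    exact Finset.disjoint_self_iff_empty D |>.1 (h.mono_left hD)
  have hw1 := wt_sdiff J hC1
  have h2 : 0 ≤ wt J (C \ C1) := by
    by_contra hc
    push_neg at hc
    have hbad : Bad α β E J u (C \ C1) := by
      refine ⟨Finset.sdiff_subset.trans hCE, fun e he => hCu e (Finset.sdiff_subset he), ?_, hc⟩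
      intro z hzz
      by_cases e0 : bd α β C z = 0
      · apply hodd
        rw [bd_sdiff α β hC1, e0, hb1, zero_add] at hzz
        exact hzz
      · exact hCN z e0
    exact absurd (hmin _ hbad) (not_le.2 (hlt C1 hC1 hC1ne))
  have hbad1 : Bad α β E J u C1 := by
    refine ⟨hC1.trans hCE, fun e he => hCu e (hC1 he), ?_, by omega⟩
    intro z hzz
    apply hodd
    rw [← hb1]
    exact hzz
  have hCC : C1 = C := Finset.eq_of_subset_of_card_le hC1 (hmin _ hbad1)
  rw [hCC] at hb1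
  have hP : IsP α β C z1 z2 := ⟨Ne.symm hz2, hb1⟩
  have heven : ∀ Q' ⊆ C, (∀ x, bd α β Q' x = 0) → Q' = ∅ := by
    intro Q' hQ' hb
    by_contra hQne
    have hw := wt_sdiff J hQ'
    have hw0 := hC.2 Q' (hQ'.trans hCE) hb
    have hbad : Bad α β E J u (C \ Q') := by
      refine ⟨Finset.sdiff_subset.trans hCE, fun e he => hCu e (Finset.sdiff_subset he), ?_,
        by omega⟩
      intro z hzz
      rw [bd_sdiff α β hQ', hb, add_zero] at hzz
      exact hCN z hzz
    exact absurd (hmin _ hbad) (not_le.2 (hlt Q' hQ' hQne))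
  have n1 := hCN z1 hz1
  have n2 := hCN z2 hbz2'
  have hev := hp ε N α β E C u z1 z2 hB hCE hP n1 n2
  obtain ⟨g1, hg1, hg1'⟩ := n1
  obtain ⟨g2, hg2, hg2'⟩ := n2
  have hat : ∀ (g : ε) (z : N), ((α g = u ∧ β g = z) ∨ (α g = z ∧ β g = u)) → At α β u g := by
    rintro g z (h | h)
    · exact Or.inl h.1
    · exact Or.inr h.2
  have g1C : g1 ∉ C := fun h => hCu g1 h (hat _ _ hg1')
  have g2C : g2 ∉ C := fun h => hCu g2 h (hat _ _ hg2')
  have hgg : g1 ≠ g2 := by
    intro h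
    subst h
    rcases hg1' with ⟨a1, b1⟩ | ⟨a1, b1⟩ <;> rcases hg2' with ⟨a2, b2⟩ | ⟨a2, b2⟩
    · exact hz2 (b2.symm.trans b1)
    · exact hB g1 hg1 g1 hg1 (a1.trans b2.symm)
    · exact hB g1 hg1 g1 hg1 (a2.trans b1.symm)
    · exact hz2 (a2.symm.trans a1)
  have hpt : ∀ (g : ε) (z x : N), ((α g = u ∧ β g = z) ∨ (α g = z ∧ β g = u)) →
      pt (α g) x + pt (β g) x = pt u x + pt z x := by
    rintro g z x (⟨a, b⟩ | ⟨a, b⟩)
    · rw [a, b]
    · rw [a, b, add_comm]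
  have hg2n : g1 ∉ insert g2 C := by
    rw [Finset.mem_insert]
    rintro (h | h)
    · exact hgg h
    · exact g1C h
  have hbig := hC.2 (insert g1 (insert g2 C)) (by
    intro e he
    rcases Finset.mem_insert.1 he with rfl | he
    · exact hg1
    rcases Finset.mem_insert.1 he with rfl | he
    · exact hg2
    · exact hCE he) (by
    intro x
    rw [bd_insert α β hg2n, bd_insert α β g2C, hpt g1 z1 x hg1', hpt g2 z2 x hg2', hb1]
    have e1 := zz (pt u x)
    have e2 := zz (pt z1 x)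
    have e3 := zz (pt z2 x)
    linear_combination e1 + e2 + e3)
  have hwi : ∀ (g : ε) (A : Finset ε), g ∉ A → wt J (insert g A) = wt J {g} + wt J A := by
    intro g A hg
    rw [Finset.insert_eq, wt_union J (Finset.disjoint_singleton_left.2 hg)]
  rw [hwi _ _ hg2n, hwi _ _ g2C] at hbig
  have hle : ∀ g : ε, (g ∈ J ∧ wt J {g} = -1) ∨ (g ∉ J ∧ wt J {g} = 1) := by
    intro g
    by_cases h : g ∈ J
    · exact Or.inl ⟨h, wt_singleton_mem h⟩
    · exact Or.inr ⟨h, wt_singleton_notMem h⟩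
  have hpar : ∃ k : ℤ, wt J C = 2 * k := by
    obtain ⟨k, hk⟩ := hev
    refine ⟨(k : ℤ) - ((C ∩ J).card : ℤ), ?_⟩
    unfold wt
    rw [hk]
    push_cast
    ring
  obtain ⟨k, hk⟩ := hpar
  have hfin : wt J C = -2 ∧ g1 ∉ J ∧ g2 ∉ J := by
    rcases hle g1 with ⟨a1, b1⟩ | ⟨a1, b1⟩ <;> rcases hle g2 with ⟨a2, b2⟩ | ⟨a2, b2⟩
    · omega
    · omega
    · omega
    · exact ⟨by omega, a1, a2⟩
  exact ⟨C, z1, z2, g1, g2, hCE, hCu, hP, hfin.1, heven, hg1, hfin.2.1, hg1', hg2, hfin.2.2, hg2'⟩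

end Pool.Agent.Helper7.NF
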